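import Mathlib

/-! Definitions for the statement: plane trees in the Ulam-Harris-Neveu formalism, conditioned
Bienayme trees, the largest common subtree. -/

namespace Pool.Agent.MP_8702f5_pr

open Filter

/-- A finite plane tree: a finite set of words containing the empty word and closed under taking
the parent and the elder sibling. -/
structure PlaneTree where
  verts : Finset (List ℕ)
  root_mem : [] ∈ verts
  parent_mem : ∀ u i, u ++ [i] ∈ verts → u ∈ verts
  sibling_mem : ∀ u i, u ++ [i + 1] ∈ verts → u ++ [i] ∈ verts

/-- The number of children of `u`. -/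
noncomputable def PlaneTree.outdeg (t : PlaneTree) (u : List ℕ) : ℕ :=
  {i : ℕ | u ++ [i] ∈ t.verts}.ncard

/-- The underlying graph: each vertex is joined to its children. -/
def PlaneTree.graph (t : PlaneTree) : SimpleGraph t.verts :=
  SimpleGraph.fromRel fun u v => ∃ i : ℕ, (v : List ℕ) = (u : List ℕ) ++ [i]

open Classical in
/-- The maximum degree of the underlying graph. -/
noncomputable def PlaneTree.maxDeg (t : PlaneTree) : ℕ := t.graph.maxDegree

/-- The largest number of vertices of a tree contained in both underlying graphs. -/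
noncomputable def LCS (t t' : PlaneTree) : ℕ :=
  sSup {k : ℕ | ∃ S : SimpleGraph (Fin k), S.IsTree ∧ S.IsContained t.graph ∧
    S.IsContained t'.graph}

/-- The probability that a Bienayme tree with offspring law `μ` equals `t`. -/
noncomputable def weight (μ : ℕ → ℝ) (t : PlaneTree) : ℝ := ∏ u ∈ t.verts, μ (t.outdeg u)

/-- The probability that a Bienayme tree with offspring law `μ` has exactly `n` vertices. -/
noncomputable def sizeProb (μ : ℕ → ℝ) (n : ℕ) : ℝ :=
  ∑ᶠ t ∈ {t : PlaneTree | t.verts.card = n}, weight μ t

/-- The probability of the event `A` for two independent Bienayme trees with offspring laws `μ` and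
`μ'`, each conditioned to have `n` vertices. -/
noncomputable def pairProb (μ μ' : ℕ → ℝ) (n : ℕ) (A : PlaneTree → PlaneTree → Prop) : ℝ :=
  (∑ᶠ p ∈ {p : PlaneTree × PlaneTree | p.1.verts.card = n ∧ p.2.verts.card = n ∧ A p.1 p.2},
    weight μ p.1 * weight μ' p.2) / (sizeProb μ n * sizeProb μ' n)

/-- `μ` is a critical non-trivial offspring law with tail `μ([k, ∞)) ∼ c k ^ (-α)`. -/
structure HeavyTailed (μ : ℕ → ℝ) (c α : ℝ) : Prop where
  nonneg : ∀ k, 0 ≤ μ k
  total : HasSum μ 1
  mean : HasSum (fun k : ℕ => (k : ℝ) * μ k) 1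
  zero_pos : 0 < μ 0
  tail : Asymptotics.IsEquivalent atTop (fun k : ℕ => ∑' i : ℕ, μ (i + k))
    (fun k : ℕ => c * (k : ℝ) ^ (-α))

end Pool.Agent.MP_8702f5_pr
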